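import Pool.Agent.Helper61.P3.St1

set_option autoImplicit false

open MeasureTheory Set Filter Topology
open scoped ENNReal RealInnerProductSpace

namespace Pool.Agent.Helper21.P3

open Pool.Agent.Helper61.P3 Pool.Agent.Helper20.RG Pool.Agent.Helper20.EQ
open Pool.Agent.Helper68.LM (Pl BB Bd Av HL ft fm DQ)
open Pool.Agent.Helper68.EP (elt GapP)

theorem CVR_avg (β : ℝ → ℝ) (F : Set ℝ) (Γ : ℝ) (a : ℤ × ℤ) (κ : ℤ → ℝ) (t : ℝ)
    (hβ : Continuous β) (h01 : ∀ t, 0 ≤ β t ∧ β t ≤ 1) (hF : IsOpen F) (hFβ : ∀ t ∈ F, 1 / 2 < β t)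
    (hΓ : 1 ≤ Γ) (hvol : ENNReal.ofReal ((2 : ℝ) ^ a.1 / Γ) ≤ volume (F ∩ dI a))
    (hsub : dI a ⊆ Ia κ (a.1 + 4) t) : 1 ≤ 32 * Γ * Ed κ (a.1 + 4) β t := by
  have hΓ0 : 0 < Γ := by linarith
  have h2 : (0 : ℝ) < (2 : ℝ) ^ a.1 := by positivity
  set S : Set ℝ := F ∩ dI a with hS
  have hSm : MeasurableSet S := hF.measurableSet.inter measurableSet_Ico
  have hSfin : volume S ≠ ∞ := by
    refine ne_top_of_le_ne_top ?_ (measure_mono (inter_subset_right : S ⊆ dI a))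
    unfold dI
    rw [Real.volume_Ico]
    exact ENNReal.ofReal_ne_top
  have hreal : (2 : ℝ) ^ a.1 / Γ ≤ (volume S).toReal :=
    (ENNReal.ofReal_le_iff_le_toReal hSfin).1 hvol
  have hint : IntegrableOn β (Ia κ (a.1 + 4) t) volume := by
    unfold Ia
    exact (hβ.integrableOn_Icc).mono_set Ico_subset_Icc_self
  have hsubS : S ⊆ Ia κ (a.1 + 4) t := fun x hx => hsub hx.2
  have h3 : ∫ r in S, β r ≤ ∫ r in Ia κ (a.1 + 4) t, β r := by
    refine setIntegral_mono_set hint ?_ ?_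
    · exact Filter.Eventually.of_forall fun x => (h01 x).1
    · exact Filter.Eventually.of_forall hsubS
  have h4 : ∫ _ in S, (1 / 2 : ℝ) ≤ ∫ r in S, β r := by
    refine setIntegral_mono_on ?_ (hint.mono_set hsubS) hSm ?_
    · exact integrableOn_const hSfin
    · intro x hx
      exact (hFβ x hx.1).le
  have h5 : ∫ _ in S, (1 / 2 : ℝ) = (volume S).toReal * (1 / 2) := by
    rw [setIntegral_const]
    simp [Measure.real, smul_eq_mul]
  have h6 : (2 : ℝ) ^ a.1 / Γ * (1 / 2) ≤ ∫ r in Ia κ (a.1 + 4) t, β r := by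
    have := mul_le_mul_of_nonneg_right hreal (by norm_num : (0 : ℝ) ≤ 1 / 2)
    linarith
  have h7 : (2 : ℝ) ^ (-(a.1 + 4)) = 1 / (16 * (2 : ℝ) ^ a.1) := by
    rw [zpow_neg, zpow_add₀ (by norm_num : (2 : ℝ) ≠ 0)]
    rw [one_div, mul_comm]
    norm_num
  unfold Ed
  rw [h7]
  have h8 : 32 * Γ * (1 / (16 * (2 : ℝ) ^ a.1) * ((2 : ℝ) ^ a.1 / Γ * (1 / 2))) = 1 := by
    field_simp
    norm_num
  calc (1 : ℝ) = 32 * Γ * (1 / (16 * (2 : ℝ) ^ a.1) * ((2 : ℝ) ^ a.1 / Γ * (1 / 2))) := h8.symm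
    _ ≤ 32 * Γ * (1 / (16 * (2 : ℝ) ^ a.1) * ∫ r in Ia κ (a.1 + 4) t, β r) := by gcongr

theorem hCVR (hGR : Pool.Agent.Helper61.P3.StGR) : Pool.Agent.Helper61.P3.StCVR := by
  intro β F Γ o p I h hβ h01 hF hFβ hΓ hI h0 h1 t
  obtain ⟨hg1, hg2, hg3⟩ := hGR
  by_cases ht : t ∈ Om I
  · have hind : ind (Om I) t = 1 := by
      unfold ind
      rw [indicator_of_mem ht]
    rw [hind]
    unfold Om at ht
    simp only [mem_iUnion] at ht
    obtain ⟨a, ha, hta⟩ := ht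
    obtain ⟨ha1, ha2⟩ := hI a ha
    have h2 : (0 : ℝ) < (2 : ℝ) ^ a.1 := by positivity
    obtain ⟨i, hi, hsub⟩ := hg3 o (((a.2 : ℝ) - 2) * (2 : ℝ) ^ a.1) a.1
    have hdI5 : dI5 a ⊆ Ia (gk i o) (a.1 + 4) (((a.2 : ℝ) - 2) * (2 : ℝ) ^ a.1) := by
      refine Subset.trans ?_ hsub
      intro y hy
      refine ⟨hy.1, hy.2.trans (le_of_eq ?_)⟩
      ring
    have hIa := ((hg1 (gk i o) (hg2 i o) (a.1 + 4) (((a.2 : ℝ) - 2) * (2 : ℝ) ^ a.1)).2.2.2.2.1
      t (hdI5 hta)).2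
    have hdI : dI a ⊆ Ia (gk i o) (a.1 + 4) t := by
      rw [hIa]
      refine Subset.trans ?_ hdI5
      intro y hy
      refine ⟨?_, ?_⟩
      · have := hy.1
        nlinarith
      · have := hy.2
        nlinarith
    have h5 := h1 i hi (a.1 + 4) (by linarith) t
      (CVR_avg β F Γ a (gk i o) t hβ h01 hF hFβ hΓ ha2 hdI)
    have h6 := h0 0 (by norm_num) t
    have h7 := h0 1 (by norm_num) t
    have h8 : i = 0 ∨ i = 1 := by omega
    rcases h8 with rfl | rfl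
    · linarith
    · linarith
  · have hind : ind (Om I) t = 0 := by
      unfold ind
      rw [indicator_of_notMem ht]
    rw [hind]
    exact add_nonneg (h0 0 (by norm_num) t) (h0 1 (by norm_num) t)

end Pool.Agent.Helper21.P3
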