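import Pool.Agent.Helper61.P3.St3

set_option autoImplicit false

open MeasureTheory Set Filter Topology
open scoped ENNReal RealInnerProductSpace

namespace Pool.Agent.Helper21.P3

open Pool.Agent.Helper61.P3 Pool.Agent.Helper20.RG Pool.Agent.Helper20.EQ
open Pool.Agent.Helper68.LM (Pl BB Bd Av HL ft fm DQ)
open Pool.Agent.Helper68.EP (elt GapP)

private theorem PES_meas_Av (ν : Measure Pl) [SFinite ν] (t : ℝ) (g : Pl → ℝ)
    (hg : Measurable g) : Measurable (Av ν t g) := by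
  have h : StronglyMeasurable (fun z : Pl × Pl => g (z.1 - t • z.2)) :=
    (hg.comp (by fun_prop)).stronglyMeasurable
  exact h.integral_prod_right'.measurable

private theorem PES_meas_Y (s : ℝ) (c : Pl) (m : ℕ) (l : ℝ) (k : ℤ) (g : Pl → ℝ)
    (hg : Measurable g) : Measurable (Y s c m l k g) := by
  have h1 : SFinite (sg s) := by unfold sg; infer_instance
  have h2 : SFinite bx := by unfold bx; infer_instance
  have h3 := PES_meas_Av (sg s) ((2 : ℝ) ^ k * l) _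
    (PES_meas_Av bx (2 * (2 : ℝ) ^ (k - (m : ℤ))) g hg)
  exact h3.comp (measurable_id.sub measurable_const)

private theorem PES_meas_Z (s : ℝ) (c : Pl) (m m' : ℕ) (l : ℝ) (k : ℤ) (g : Pl → ℝ)
    (hg : Measurable g) : Measurable (Z s c m m' l k g) :=
  (PES_meas_Y s c m l k g hg).sub (PES_meas_Y s c m' l k g hg)

private theorem PES_meas_MD (s : ℝ) (c : Pl) (m m' V : ℕ) (k : ℤ) (g : Pl → ℝ)
    (hg : Measurable g) : Measurable (MD s c m m' V k g) := by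
  have e : MD s c m m' V k g = fun x => ⨆ w ∈ ((Finset.range (V + 1) : Finset ℕ) : Set ℕ),
      ‖Z s c m m' ((2 : ℝ) ^ w) k g x - Z s c m m' ((2 : ℝ) ^ 0) k g x‖ₑ := by
    funext x
    unfold MD
    rw [Finset.sup_eq_iSup]
    rfl
  rw [e]
  refine Measurable.biSup _ (Finset.countable_toSet _) fun w _ => ?_
  exact ((PES_meas_Z s c m m' _ k g hg).sub (PES_meas_Z s c m m' _ k g hg)).enorm

/-- the numbers -/
private theorem PES_num (A' : ℝ) (hA : 0 ≤ A') (u : ℕ) :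
    ((⌈(2 : ℝ) ^ ((27 / 32 : ℝ) * u)⌉₊ : ℕ) : ℝ) + u + 1 + (((2 ^ (u / 8) : ℕ) : ℝ) + 1) *
      (1 + (2 : ℝ) ^ u * (A' * ((⌈(2 : ℝ) ^ ((27 / 32 : ℝ) * u)⌉₊ : ℕ) : ℝ) ^ (-(1 / (3 : ℝ)))))
      ≤ (20 + 2 * A') * (2 : ℝ) ^ ((7 / 8 : ℝ) * u) := by
  have hu0 : (0 : ℝ) ≤ u := Nat.cast_nonneg u
  have h12 : (1 : ℝ) ≤ 2 := by norm_num
  set P : ℝ := (2 : ℝ) ^ ((7 / 8 : ℝ) * u) with hP
  set Q : ℝ := (2 : ℝ) ^ ((27 / 32 : ℝ) * u) with hQ
  set T : ℝ := ((⌈Q⌉₊ : ℕ) : ℝ) with hT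
  have hQ1 : 1 ≤ Q := Real.one_le_rpow h12 (by positivity)
  have hQP : Q ≤ P := by
    rw [hQ, hP]
    exact Real.rpow_le_rpow_of_exponent_le h12 (by nlinarith)
  have hT1 : T ≤ Q + 1 := (Nat.ceil_lt_add_one (by linarith)).le
  have hT2 : Q ≤ T := Nat.le_ceil Q
  have hu1 : (u : ℝ) + 1 ≤ 16 * P := by
    have h1 : P = Real.exp (Real.log 2 * ((7 / 8 : ℝ) * u)) := by
      rw [hP, Real.rpow_def_of_pos (by norm_num)]
    have h2 := Real.add_one_le_exp (Real.log 2 * ((7 / 8 : ℝ) * u))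
    rw [← h1] at h2
    have h3 := Real.log_two_gt_d9
    nlinarith
  set W : ℝ := (2 : ℝ) ^ ((1 / 8 : ℝ) * u) with hW
  have hW1 : 1 ≤ W := Real.one_le_rpow h12 (by positivity)
  have hWP : W ≤ P := by
    rw [hW, hP]
    exact Real.rpow_le_rpow_of_exponent_le h12 (by nlinarith)
  have hw : ((2 ^ (u / 8) : ℕ) : ℝ) ≤ W := by
    push_cast
    rw [← Real.rpow_natCast]
    apply Real.rpow_le_rpow_of_exponent_le h12
    have h4 : ((u / 8 : ℕ) : ℝ) ≤ (u : ℝ) / ((8 : ℕ) : ℝ) := Nat.cast_div_le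
    have h5 : (u : ℝ) / ((8 : ℕ) : ℝ) = 1 / 8 * u := by
      push_cast
      ring
    linarith
  have hTp : T ^ (-(1 / (3 : ℝ))) ≤ (2 : ℝ) ^ (-((9 / 32 : ℝ) * u)) := by
    have h6 : T ^ (-(1 / (3 : ℝ))) ≤ Q ^ (-(1 / (3 : ℝ))) :=
      Real.rpow_le_rpow_of_nonpos (by linarith) hT2 (by norm_num)
    refine h6.trans (le_of_eq ?_)
    rw [hQ, ← Real.rpow_mul (by norm_num)]
    congr 1
    ring
  have hTp0 : 0 ≤ T ^ (-(1 / (3 : ℝ))) := Real.rpow_nonneg (by linarith) _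
  have hmain : W * ((2 : ℝ) ^ u * (2 : ℝ) ^ (-((9 / 32 : ℝ) * u))) = Q := by
    rw [hW, hQ, ← Real.rpow_natCast, ← Real.rpow_add (by norm_num), ← Real.rpow_add (by norm_num)]
    congr 1
    ring
  have h7 : (((2 ^ (u / 8) : ℕ) : ℝ) + 1) * (1 + (2 : ℝ) ^ u * (A' * T ^ (-(1 / (3 : ℝ))))) ≤
      (2 * W) * (1 + (2 : ℝ) ^ u * (A' * (2 : ℝ) ^ (-((9 / 32 : ℝ) * u)))) := by
    apply mul_le_mul
    · linarith
    · gcongr
    · positivity
    · positivity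
  have h8 : (2 * W) * (1 + (2 : ℝ) ^ u * (A' * (2 : ℝ) ^ (-((9 / 32 : ℝ) * u)))) =
      2 * W + 2 * A' * Q := by
    rw [← hmain]
    ring
  have h9 : 2 * A' * Q ≤ 2 * A' * P := mul_le_mul_of_nonneg_left hQP (by positivity)
  have h10 : (1 : ℝ) ≤ P := by linarith
  calc T + u + 1 + (((2 ^ (u / 8) : ℕ) : ℝ) + 1) *
        (1 + (2 : ℝ) ^ u * (A' * T ^ (-(1 / (3 : ℝ)))))
      ≤ T + u + 1 + (2 * W + 2 * A' * Q) := by linarith
    _ ≤ (20 + 2 * A') * P := by nlinarith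

/-- many chords which are not persistent -/
private theorem PES_cheb (c : Pl) (φ τ : ℝ → ℝ) (u : ℕ) (η m : ℝ) (k : ℤ) (g : Pl → ℝ)
    (hη : 0 < η) (hm : 0 < m) (hg : Measurable g) :
    volume {x | m ≤ ((NP c φ τ u η k g x).ncard : ℝ)} ≤ ENNReal.ofReal (4 / (m * η ^ 2)) *
      ∑ j ∈ Finset.range (2 ^ u), ∫⁻ x, MD (sl τ u j) (ce c φ u j) (mm τ u j) (mp τ u j)
        (2 ^ (u / 8)) k g x ^ 2 := by
  classical
  set f : Pl → ℝ≥0∞ := fun x => ∑ j ∈ Finset.range (2 ^ u),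
    MD (sl τ u j) (ce c φ u j) (mm τ u j) (mp τ u j) (2 ^ (u / 8)) k g x ^ 2 with hf
  have hfj : ∀ j : ℕ, Measurable fun x =>
      MD (sl τ u j) (ce c φ u j) (mm τ u j) (mp τ u j) (2 ^ (u / 8)) k g x ^ 2 := fun j =>
    (PES_meas_MD _ _ _ _ _ _ _ hg).pow_const 2
  have hfm : Measurable f := Finset.measurable_fun_sum _ fun j _ => hfj j
  have hint : ∫⁻ x, f x = ∑ j ∈ Finset.range (2 ^ u), ∫⁻ x,
      MD (sl τ u j) (ce c φ u j) (mm τ u j) (mp τ u j) (2 ^ (u / 8)) k g x ^ 2 := by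
    rw [hf, lintegral_finsetSum]
    intro j _
    exact hfj j
  have hε : 0 < m * (η / 2) ^ 2 := by positivity
  have hsub : {x | m ≤ ((NP c φ τ u η k g x).ncard : ℝ)} ⊆
      {x | ENNReal.ofReal (m * (η / 2) ^ 2) ≤ f x} := by
    intro x hx
    have hx' : m ≤ ((NP c φ τ u η k g x).ncard : ℝ) := hx
    show ENNReal.ofReal (m * (η / 2) ^ 2) ≤ f x
    set S : Finset ℕ := (Finset.range (2 ^ u)).filter (fun j => j ∈ NP c φ τ u η k g x) with hS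
    have hSc : (NP c φ τ u η k g x).ncard = S.card := by
      have e : NP c φ τ u η k g x = (S : Set ℕ) := by
        ext j
        simp only [hS, Finset.coe_filter, Finset.mem_range, mem_ofPred_eq]
        constructor
        · intro h
          exact ⟨h.1, h⟩
        · intro h
          exact h.2
      rw [e, Set.ncard_coe_finset]
    rw [hSc] at hx'
    have hj : ∀ j ∈ S, ENNReal.ofReal ((η / 2) ^ 2) ≤
        MD (sl τ u j) (ce c φ u j) (mm τ u j) (mp τ u j) (2 ^ (u / 8)) k g x ^ 2 := by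
      intro j hj
      obtain ⟨-, -, h0, w, hw, h1⟩ := Finset.mem_filter.1 hj
      rw [ENNReal.ofReal_pow (by positivity)]
      have h2 : ENNReal.ofReal (η / 2) ≤
          MD (sl τ u j) (ce c φ u j) (mm τ u j) (mp τ u j) (2 ^ (u / 8)) k g x := by
        have h3 : ‖Zc c φ τ u w k j g x - Zc c φ τ u 0 k j g x‖ₑ ≤
            MD (sl τ u j) (ce c φ u j) (mm τ u j) (mp τ u j) (2 ^ (u / 8)) k g x :=
          Finset.le_sup (f := fun w => ‖Z (sl τ u j) (ce c φ u j) (mm τ u j) (mp τ u j)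
            ((2 : ℝ) ^ w) k g x - Z (sl τ u j) (ce c φ u j) (mm τ u j) (mp τ u j)
            ((2 : ℝ) ^ 0) k g x‖ₑ) (Finset.mem_range.2 (Nat.lt_succ_of_le hw))
        refine le_trans ?_ h3
        rw [Real.enorm_eq_ofReal_abs]
        apply ENNReal.ofReal_le_ofReal
        have h4 := abs_sub_abs_le_abs_sub (Zc c φ τ u 0 k j g x) (Zc c φ τ u w k j g x)
        rw [abs_sub_comm] at h4
        linarith
      gcongr
    calc ENNReal.ofReal (m * (η / 2) ^ 2) ≤ ENNReal.ofReal ((S.card : ℝ) * (η / 2) ^ 2) := by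
          apply ENNReal.ofReal_le_ofReal
          gcongr
      _ = ∑ j ∈ S, ENNReal.ofReal ((η / 2) ^ 2) := by
          rw [Finset.sum_const, nsmul_eq_mul, ENNReal.ofReal_mul (by positivity),
            ENNReal.ofReal_natCast]
      _ ≤ ∑ j ∈ S, MD (sl τ u j) (ce c φ u j) (mm τ u j) (mp τ u j) (2 ^ (u / 8)) k g x ^ 2 :=
          Finset.sum_le_sum hj
      _ ≤ f x := Finset.sum_le_sum_of_subset (Finset.filter_subset _ _)
  have h5 : volume {x | ENNReal.ofReal (m * (η / 2) ^ 2) ≤ f x} ≤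
      (∫⁻ x, f x) / ENNReal.ofReal (m * (η / 2) ^ 2) :=
    meas_ge_le_lintegral_div hfm.aemeasurable (ENNReal.ofReal_pos.2 hε).ne' ENNReal.ofReal_ne_top
  refine (measure_mono hsub).trans (h5.trans (le_of_eq ?_))
  rw [hint, ENNReal.div_eq_inv_mul, ← ENNReal.ofReal_inv_of_pos hε]
  congr 2
  field_simp
  norm_num

theorem hPES (hSYS : Pool.Agent.Helper20.RG.StSYS) (hDFZ : Pool.Agent.Helper20.EQ.StDFZ)
    (hGPG : Pool.Agent.Helper68.EP.StGPG) : Pool.Agent.Helper61.P3.StPES := by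
  intro φ τ A c hG hA hGap
  obtain ⟨C₁, hC₁, hD⟩ := hDFZ 200 (by norm_num)
  have hA' : 0 < A ^ (1 / (3 : ℝ)) := Real.rpow_pos_of_pos hA _
  have hGp : Gap (A ^ (1 / (3 : ℝ))) 3 τ := hGPG τ A 3 hA (by norm_num) hGap
  refine ⟨max 1 (4 * (C₁ * (20 + 2 * A ^ (1 / (3 : ℝ))))), le_max_left _ _, ?_⟩
  intro u η m g hu hη hm hg
  have hSys := (hSYS φ τ (A ^ (1 / (3 : ℝ))) 3 c hG hGp hA' (by norm_num) u (by omega)).2 hu
  set T : ℕ := ⌈(2 : ℝ) ^ ((27 / 32 : ℝ) * u)⌉₊ with hT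
  have hT1 : 1 ≤ T := by
    rw [hT]
    exact Nat.one_le_ceil_iff.2 (by positivity)
  have h1 := hD u (fun j => τ (tm u j)) (ce c φ u) (mm τ u) (fun j => mm τ (u - 1) (j / 2))
    (‖c‖ + |φ 0| + 3) (KA (A ^ (1 / (3 : ℝ))) 3 u) (A ^ (1 / (3 : ℝ))) 3 hSys hA'.le
    (2 ^ (u / 8)) T g hg hT1
  have h2 := PES_num (A ^ (1 / (3 : ℝ))) hA'.le u
  rw [← hT] at h2
  calc ∑' k : ℤ, volume {x | m ≤ ((NP c φ τ u η k g x).ncard : ℝ)}
      ≤ ∑' k : ℤ, ENNReal.ofReal (4 / (m * η ^ 2)) *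
        ∑ j ∈ Finset.range (2 ^ u), ∫⁻ x, MD (sl τ u j) (ce c φ u j) (mm τ u j) (mp τ u j)
          (2 ^ (u / 8)) k g x ^ 2 :=
        ENNReal.tsum_le_tsum fun k => PES_cheb c φ τ u η m k g hη hm hg.1
    _ = ENNReal.ofReal (4 / (m * η ^ 2)) * ∑' k : ℤ,
        ∑ j ∈ Finset.range (2 ^ u), ∫⁻ x, MD (sl τ u j) (ce c φ u j) (mm τ u j) (mp τ u j)
          (2 ^ (u / 8)) k g x ^ 2 := ENNReal.tsum_mul_left
    _ ≤ ENNReal.ofReal (4 / (m * η ^ 2)) * (ENNReal.ofReal (C₁ * ((20 + 2 * A ^ (1 / (3 : ℝ))) *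
          (2 : ℝ) ^ ((7 / 8 : ℝ) * u))) * ∫⁻ x, ‖g x‖ₑ ^ 2) := by
        gcongr
        refine h1.trans ?_
        gcongr
    _ = ENNReal.ofReal (4 * (C₁ * (20 + 2 * A ^ (1 / (3 : ℝ)))) * (2 : ℝ) ^ ((7 / 8 : ℝ) * u) /
          (m * η ^ 2)) * ∫⁻ x, ‖g x‖ₑ ^ 2 := by
        rw [← mul_assoc, ← ENNReal.ofReal_mul (by positivity)]
        congr 2
        ring
    _ ≤ ENNReal.ofReal (max 1 (4 * (C₁ * (20 + 2 * A ^ (1 / (3 : ℝ))))) *
          (2 : ℝ) ^ ((7 / 8 : ℝ) * u) / (m * η ^ 2)) * ∫⁻ x, ‖g x‖ₑ ^ 2 := by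
        gcongr
        exact le_max_right _ _

end Pool.Agent.Helper21.P3
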